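import Pool.Agent.PST.StmtsU
import Pool.Agent.Helper92_PSS.FCO
import Pool.Agent.Helper52_PSS.RFS
import Pool.Agent.Helper5_PSS.TRS

/-!
# Squad PST, row NBL (helper5): the central elements in the Brauer kernel of `⟨w⟩` are nilpotent
-/

set_option autoImplicit false

open scoped BigOperators TensorProduct PowerSeries

noncomputable section

namespace Pool.Agent.PST.U.H5

open Pool.Agent.PFC (tw IsTv)
open Pool.Agent.PFD.D2b (FrR)
open Pool.Agent.PSS
open Pool.Agent.PSS.S0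
open Pool.Agent.PSS.S3

/-- `W` acts on the `W × W`-set `Ω` by conjugation -/
def Dg (Ω : Type) : Type := Ω

section dg

variable {W : Type} [CommGroup W] {Ω : Type} [MulAction (W × W) Ω]

instance : MulAction W (Dg Ω) where
  smul v ω := ((v, v) : W × W) • (show Ω from ω)
  one_smul ω := one_smul (W × W) (show Ω from ω)
  mul_smul u v ω := mul_smul ((u, u) : W × W) (v, v) (show Ω from ω)

theorem dg_smul (v : W) (ω : Dg Ω) : v • ω = ((v, v) : W × W) • (show Ω from ω) := rfl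

instance [i : Fintype Ω] : Fintype (Dg Ω) := i

/-- the points which are moved by `w` -/
def Mv (Ω : Type) [MulAction (W × W) Ω] (w : W) : Type := {ω : Dg Ω // w • ω ≠ ω}

instance [Fintype Ω] (w : W) : Finite (Mv Ω w) :=
  inferInstanceAs (Finite {ω : Dg Ω // w • ω ≠ ω})

instance (w : W) : MulAction W (Mv Ω w) where
  smul v ω := ⟨v • ω.1, by
    intro h
    apply ω.2
    have h1 := congrArg (v⁻¹ • ·) h
    simp only [smul_smul] at h1
    rw [mul_comm w v, ← mul_assoc, inv_mul_cancel, one_mul, one_smul] at h1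
    exact h1⟩
  one_smul ω := Subtype.ext (one_smul W ω.1)
  mul_smul u v ω := Subtype.ext (mul_smul u v ω.1)

theorem mv_smul (w v : W) (ω : Mv Ω w) : (v • ω).1 = v • ω.1 := rfl

end dg

/-- the trace map of the trivial subgroup -/
theorem full_trace {S W L K : Type} [CommRing S] [CommGroup W] [Fintype W] [Ring L] [Algebra S L]
    [Fintype K] (γL : W →* L) (lamL : L →ₗ[S] S) (x y : K → L) (hrf : RF S γL lamL x y)
    (a b : L) : ∑ k, ∑ v : W, x k * γL v * (a * b) * (γL v⁻¹ * y k) =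
      ∑ k, ∑ v : W, x k * γL v * (b * a) * (γL v⁻¹ * y k) := by
  classical
  have htv : IsTv (⊥ : Subgroup W) ⊤ (Finset.univ : Finset W) := by
    refine ⟨fun s _ => Subgroup.mem_top s, fun p _ => ⟨p, ⟨Finset.mem_univ _, ?_⟩, ?_⟩⟩
    · rw [inv_mul_cancel]
      exact Subgroup.one_mem _
    · rintro s ⟨_, hs⟩
      rw [Subgroup.mem_bot] at hs
      exact (inv_mul_eq_one.1 hs)
  have h1 := S0.H52.rfs S W L K γL lamL x y ⊥ Finset.univ hrf htv
  have hall : ∀ c : L, c ∈ FxR (cw S (γL.comp (⊥ : Subgroup W).subtype)) ⊤ := by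
    intro c
    rintro ⟨q, hq⟩ _
    rw [Subgroup.mem_bot] at hq
    subst hq
    change γL 1 * (c * γL (1 : W)⁻¹) = c
    rw [inv_one, map_one, one_mul, mul_one]
  have h2 := S0.H5.trs S (⊥ : Subgroup W) L (K × (Finset.univ : Finset W)) _ lamL _ _ h1
    a (hall a) b (hall b)
  have h3 : ∀ c : L, ∑ p : K × (Finset.univ : Finset W),
      x p.1 * γL p.2 * c * (γL (p.2 : W)⁻¹ * y p.1) =
        ∑ k, ∑ v : W, x k * γL v * c * (γL v⁻¹ * y k) := by
    intro c
    rw [Fintype.sum_prod_type]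
    refine Finset.sum_congr rfl fun k _ => ?_
    exact Finset.sum_coe_sort (Finset.univ : Finset W)
      (fun v => x k * γL v * c * (γL v⁻¹ * y k))
  rw [← h3, ← h3]
  exact h2

theorem nbl (hV : VnxStmt) (hP : PwcStmt) : NblStmt := by
  classical
  intro ℓ _ S R W As L K _ _ _ _ _ _ _ _ _ _ κ γ γL p lamL x y w r d hl hp O hd hr z hz hzB
  obtain ⟨Ω, _, _, b, c, c₀, hfr, hfr0⟩ := O.fr
  -- natural multiples
  have hpn : ∀ (n : ℕ) (a : L), p (n • a) = n • p a := fun n a => map_nsmul p n a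
  have htf : ∀ (j : ℕ) (a : L), ℓ ^ j • a = 0 → a = 0 := by
    intro j
    induction j with
    | zero =>
      intro a ha
      rwa [pow_zero, one_smul] at ha
    | succ j ih =>
      intro a ha
      rw [pow_succ, mul_smul] at ha
      exact O.tf a (ih _ ha)
  -- the coefficients of `z`
  have hcz : ∀ (v : W) (ω : Ω), c₀ (((v, v) : W × W) • ω) z = c₀ ω z := by
    intro v ω
    have h1 := hfr0.2.1 (v, v) ω z
    have h2 : bw R γ (v, v) z = z := by
      change γ v * (z * γ v⁻¹) = z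
      rw [hz, ← mul_assoc, ← map_mul, mul_inv_cancel, map_one, one_mul]
    rwa [h2] at h1
  have hc0 : ∀ ω : Ω, ((w, w) : W × W) • ω = ω → c₀ ω z = 0 := by
    intro ω hω
    have hF : FrR (cw R γ) (T := Dg Ω) (fun ω => p (b ω)) c₀ :=
      ⟨fun g t => hfr0.1 (g, g) t, fun g t n => hfr0.2.1 (g, g) t n, hfr0.2.2⟩
    refine S0.H92.fco ℓ R W As (Dg Ω) (cw R γ) (fun ω => p (b ω)) c₀ hl hp hF
      (Subgroup.zpowers w) z hzB ω ?_
    intro h hh
    have h1 : Subgroup.zpowers w ≤ MulAction.stabilizer W (show Dg Ω from ω) := by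
      rw [Subgroup.zpowers_le]
      exact hω
    exact h1 hh
  -- the sum over the moved points
  have : Fintype (Mv Ω w) := Fintype.ofFinite _
  set s : R → S := Function.surjInv O.sur with hs
  have hsk : ∀ t, κ (s t) = t := Function.surjInv_eq O.sur
  set a : Mv Ω w → L := fun ω => s (c₀ ω.1 z) • b ω.1 with ha
  set z' : L := ∑ ω, a ω with hz'
  have hav : ∀ (v : W) (ω : Mv Ω w), γL v * a ω * γL v⁻¹ = a (v • ω) := by
    intro v ω
    have h1 : b (((v, v) : W × W) • (show Ω from ω.1)) = γL v * (b ω.1 * γL v⁻¹) :=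
      hfr.1 (v, v) ω.1
    have h2 : c₀ (((v, v) : W × W) • (show Ω from ω.1)) z = c₀ ω.1 z := hcz v ω.1
    change γL v * (s (c₀ ω.1 z) • b ω.1) * γL v⁻¹ =
      s (c₀ (((v, v) : W × W) • (show Ω from ω.1)) z) •
        b (((v, v) : W × W) • (show Ω from ω.1))
    rw [h1, h2, mul_smul_comm, smul_mul_assoc, mul_assoc]
  have hpz : p z' = z := by
    rw [hz', map_sum]
    have h1 : ∀ ω : Mv Ω w, p (a ω) = c₀ ω.1 z • p (b ω.1) := by
      intro ω
      change p (s (c₀ ω.1 z) • b ω.1) = _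
      rw [O.sc, hsk]
    rw [Finset.sum_congr rfl fun ω _ => h1 ω, ← hfr0.2.2 z]
    conv_rhs => rw [← hfr0.2.2 z]
    have h2 : ∑ ω : Mv Ω w, c₀ ω.1 z • p (b ω.1) =
        ∑ ω ∈ (Finset.univ : Finset Ω).filter (fun ω => ((w, w) : W × W) • ω ≠ ω),
          c₀ ω z • p (b ω) := by
      refine Finset.sum_bij (fun ω _ => (ω.1 : Ω)) ?_ ?_ ?_ ?_
      · intro ω _
        exact Finset.mem_filter.2 ⟨Finset.mem_univ _, ω.2⟩
      · intro ω _ ω' _ h
        exact Subtype.ext h
      · intro ω hω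
        exact ⟨⟨ω, (Finset.mem_filter.1 hω).2⟩, Finset.mem_univ _, rfl⟩
      · intro ω _
        rfl
    have h3 : ∑ ω ∈ (Finset.univ : Finset Ω).filter (fun ω => ((w, w) : W × W) • ω ≠ ω),
        c₀ ω z • p (b ω) = ∑ ω, c₀ ω z • p (b ω) := by
      refine Finset.sum_filter_of_ne fun ω _ h h' => h ?_
      rw [hc0 ω h', zero_smul]
    rw [hfr0.2.2 z, h2, h3]
  have hzc' : ∀ v : W, γL v * z' = z' * γL v := by
    intro v
    have h1 : γL v * z' * γL v⁻¹ = z' := by
      rw [hz', Finset.mul_sum, Finset.sum_mul, Finset.sum_congr rfl fun ω _ => hav v ω]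
      exact Fintype.sum_equiv (MulAction.toPerm v) _ _ fun ω => rfl
    calc γL v * z' = γL v * z' * (γL v⁻¹ * γL v) := by
          rw [← map_mul, inv_mul_cancel, map_one, mul_one]
      _ = γL v * z' * γL v⁻¹ * γL v := by rw [← mul_assoc]
      _ = z' * γL v := by rw [h1]
  -- the central lift
  obtain ⟨z1, hz1, hpz1⟩ := O.cen z hz
  obtain ⟨δ, hδ⟩ := O.ker (z1 - z') (by rw [map_sub, hpz1, hpz, sub_self])
  have hδ1 : z1 = z' + ℓ • δ := by rw [← hδ]; abel
  have hcomm : z' * δ = δ * z' := by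
    have h1 : ℓ • (z' * δ - δ * z') = 0 := by
      rw [smul_sub, ← mul_smul_comm, ← smul_mul_assoc, ← hδ, mul_sub, sub_mul, hz1]
      abel
    exact sub_eq_zero.1 (O.tf _ h1)
  -- the sizes
  obtain ⟨g, hg⟩ := IsPGroup.iff_card.1 hp
  rw [Nat.card_eq_fintype_card] at hg
  obtain ⟨m, d', hdd, hd'⟩ := O.sep d hd
  set k : ℕ := g + m with hk
  obtain ⟨y', hy'⟩ := hP ℓ L z' δ hcomm k
  rw [← hδ1] at hy'
  -- the trace
  let f : L →+ L :=
    { toFun := fun t => ∑ k, ∑ v : W, x k * γL v * t * (γL v⁻¹ * y k)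
      map_zero' := by simp
      map_add' := by
        intro t t'
        simp only [mul_add, add_mul, Finset.sum_add_distrib] }
  have hf : ∀ t, f t = ∑ k, ∑ v : W, x k * γL v * t * (γL v⁻¹ * y k) := fun t => rfl
  obtain ⟨u, hu⟩ := hV ℓ W (Mv Ω w) L L γL a f w k hp hav
    (fun t t' => full_trace γL lamL x y O.rf t t') (fun ω h => ω.2 (congrArg Subtype.val h))
  rw [← hz'] at hu
  have hzn : ∀ v : W, γL v * (γL w * z' ^ ℓ ^ k) = γL w * z' ^ ℓ ^ k * γL v := by
    intro v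
    have h1 : Commute (γL v) z' := hzc' v
    have h2 : Commute (γL v) (γL w) := by
      change γL v * γL w = γL w * γL v
      rw [← map_mul, ← map_mul, mul_comm]
    exact (h2.mul_right (h1.pow_right _)).eq
  have hf1 : f (γL w * z' ^ ℓ ^ k) =
      Fintype.card W • ∑ k', x k' * (γL w * z' ^ ℓ ^ k) * y k' := by
    rw [hf, Finset.smul_sum]
    refine Finset.sum_congr rfl fun k' _ => ?_
    have h1 : ∀ v ∈ (Finset.univ : Finset W),
        x k' * γL v * (γL w * z' ^ ℓ ^ k) * (γL v⁻¹ * y k') =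
          x k' * (γL w * z' ^ ℓ ^ k) * y k' := by
      intro v _
      rw [mul_assoc (x k'), hzn v, ← mul_assoc (x k'), mul_assoc _ (γL v), ← mul_assoc (γL v),
        ← map_mul, mul_inv_cancel, map_one, one_mul]
    rw [Finset.sum_congr rfl h1, Finset.sum_const, Finset.card_univ]
  -- the product with the central element
  have hz1n : ∀ t, z1 ^ ℓ ^ k * t = t * z1 ^ ℓ ^ k := by
    intro t
    exact ((show Commute z1 t from hz1 t).pow_left _).eq
  have hrt : ∑ k', x k' * (γL w * z1 ^ ℓ ^ k) * y k' =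
      z1 ^ ℓ ^ k * ∑ k', x k' * γL w * y k' := by
    rw [Finset.mul_sum]
    refine Finset.sum_congr rfl fun k' _ => ?_
    rw [← hz1n (γL w), ← mul_assoc, ← hz1n (x k')]
    simp only [mul_assoc]
  have hmain : ∃ y3 : L, Fintype.card W • (d • z1 ^ ℓ ^ k) = ℓ ^ (k + 1) • y3 := by
    refine ⟨r * (u + Fintype.card W • ∑ k', x k' * (γL w * y') * y k'), ?_⟩
    have h1 : ∑ k', x k' * (γL w * z1 ^ ℓ ^ k) * y k' =
        ∑ k', x k' * (γL w * z' ^ ℓ ^ k) * y k' +
          ℓ ^ (k + 1) • ∑ k', x k' * (γL w * y') * y k' := by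
      rw [Finset.smul_sum, ← Finset.sum_add_distrib]
      refine Finset.sum_congr rfl fun k' _ => ?_
      rw [hy', mul_add, mul_add, add_mul, mul_smul_comm, mul_smul_comm, smul_mul_assoc]
    have h2 : Fintype.card W • (z1 ^ ℓ ^ k * ∑ k', x k' * γL w * y k') =
        ℓ ^ (k + 1) • (u + Fintype.card W • ∑ k', x k' * (γL w * y') * y k') := by
      rw [← hrt, h1, smul_add, ← hf1, hu, smul_add, smul_comm (Fintype.card W)]
    have h3 : r * (z1 ^ ℓ ^ k * ∑ k', x k' * γL w * y k') = d • z1 ^ ℓ ^ k := by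
      rw [← mul_assoc, ← hz1n r, mul_assoc, hr, mul_smul_comm, mul_one]
    rw [← h3, ← mul_smul_comm, h2, mul_smul_comm]
  obtain ⟨y3, hy3⟩ := hmain
  have h4 : d' • z1 ^ ℓ ^ k = ℓ • y3 := by
    have h5 : ℓ ^ (g + m) • (d' • z1 ^ ℓ ^ k - ℓ • y3) = 0 := by
      rw [hg, hdd, mul_smul, ← Nat.cast_pow, Nat.cast_smul_eq_nsmul, smul_smul, ← pow_add, ← hk,
        pow_succ, mul_smul] at hy3
      rw [smul_sub, ← hk, hy3, sub_self]
    exact sub_eq_zero.1 (htf _ _ h5)
  have h5 : κ d' • z ^ ℓ ^ k = 0 := by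
    have h6 := congrArg p h4
    rw [O.sc, map_pow, hpz1, hpn, ← Nat.cast_smul_eq_nsmul R, hl, zero_smul] at h6
    exact h6
  refine ⟨ℓ ^ k, ?_⟩
  rw [← hfr0.2.2 (z ^ ℓ ^ k)]
  refine Finset.sum_eq_zero fun ω _ => ?_
  have h6 : κ d' * c₀ ω (z ^ ℓ ^ k) = 0 := by
    have h7 := congrArg (c₀ ω) h5
    rwa [map_smul, map_zero, smul_eq_mul] at h7
  rcases mul_eq_zero.1 h6 with h | h
  · exact absurd h hd'
  · rw [h, zero_smul]

end Pool.Agent.PST.U.H5
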