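import Pool.Agent.PST.StmtsDZ

/-!
# Squad PST, row NTR (helper5): the regularity datum passes to `N_(W0)(A)`
-/

open scoped BigOperators TensorProduct PowerSeries

noncomputable section

namespace Pool.Agent.PST.H5

open Pool.Agent.PFC (tw IsTv)
open Pool.Agent.PFD.D2b (FrR)
open Pool.Agent.PSS

section frames

variable {R H K M Ω : Type} [CommRing R] [Group H] [Group K] [AddCommGroup M] [Module R M]

/-- a frame for `H` is a frame for `K` by means of `f : K → H` -/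
theorem frR_comp [Fintype Ω] [MulAction H Ω] (ρ : H →* (M →ₗ[R] M)) (f : K →* H) (b : Ω → M)
    (c : Ω → (M →ₗ[R] R)) (h : FrR ρ b c) :
    letI : MulAction K Ω := MulAction.compHom Ω f
    FrR (ρ.comp f) b c := by
  let _ : MulAction K Ω := MulAction.compHom Ω f
  refine ⟨?_, ?_, h.2.2⟩
  · intro g t
    exact h.1 (f g) t
  · intro g t n
    exact h.2.1 (f g) t n

end frames

/-- the diagonal -/
def dia (V : Type) [CommGroup V] : V →* V × V := (MonoidHom.id V).prod (MonoidHom.id V)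

theorem cw_eq (R : Type) {V A : Type} [CommRing R] [CommGroup V] [Ring A] [Algebra R A]
    (α : V →* A) : cw R α = (bw R α).comp (dia V) := by
  ext v a
  rfl

section nw

variable {R V A B : Type} [CommRing R] [CommGroup V] [Ring A] [Algebra R A] [Ring B] [Algebra R B]
  {α : V →* A} {U : Subgroup V}

theorem mem1 {a : A} (h : ∀ w : V, α w * a = a * α w) :
    a ∈ FxR (bw R α) (twW U (1 : MulAut U)) := by
  rw [mem_tw]
  intro w
  exact h w

theorem nmul (N : IsNW R α U B) {a b : A} (ha : a ∈ FxR (bw R α) (twW U (1 : MulAut U)))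
    (hb : b ∈ FxR (bw R α) (twW U (1 : MulAut U))) : N.β 1 (a * b) = N.β 1 a * N.β 1 b := by
  have h := N.mul 1 1 a ha b hb
  rwa [mul_one] at h

theorem pow_comm {a : A} (h : ∀ w : V, α w * a = a * α w) (n : ℕ) (w : V) :
    α w * a ^ n = a ^ n * α w := ((show Commute (α w) a from h w).pow_right n).eq

theorem npow (N : IsNW R α U B) {a : A} (h : ∀ w : V, α w * a = a * α w) (n : ℕ) :
    N.β 1 (a ^ n) = N.β 1 a ^ n := by
  induction n with
  | zero => rw [pow_zero, pow_zero, N.one]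
  | succ n ih => rw [pow_succ, pow_succ, nmul N (mem1 (pow_comm h n)) (mem1 h), ih]

theorem fx_nwh (N : IsNW R α U B) {a : A} (ha : a ∈ FxR (cw R α) ⊤) :
    N.β 1 a ∈ FxR (cw R N.nwh) ⊤ := by
  have h1 : ∀ w : V, α w * a = a * α w := fun w => mem_cw.1 ha w (Subgroup.mem_top _)
  rw [mem_cw]
  intro v _
  rw [N.nwh_apply, ← nmul N (al_mem_tw v U) (mem1 h1), ← nmul N (mem1 h1) (al_mem_tw v U), h1 v]

end nw

/-- the Brauer map `β 1` respects the Brauer kernels of the subgroups of `V` -/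
theorem bk_nwh (hN : NfrStmt) (hF : FrbStmt) (ℓ : ℕ) [Fact ℓ.Prime] {F V E A B : Type} [Field F]
    [CharP F ℓ] [CommGroup V] [Fintype V] [Group E] [Ring A] [Algebra F A] [Ring B] [Algebra F B]
    {φ : E →* MulAut V} {α : V →* A} {U : Subgroup V} (N : IsNW F α U B) (hp : IsPGroup ℓ V)
    (hL : Per F φ α) (Q : Subgroup V) {x : A} (hx : x ∈ FxR (cw F α) ⊤)
    (hxQ : x ∈ BKR (cw F α) Q) : N.β 1 x ∈ BKR (cw F N.nwh) Q := by
  classical
  obtain ⟨Ω, fΩ, aΩ, b0, c0, hfr, hst⟩ := hL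
  have : Finite (MulAut U) := Finite.of_injective (fun f => (f : U → U)) DFunLike.coe_injective
  have : Fintype (MulAut U) := Fintype.ofFinite _
  have hl : (ℓ : F) = 0 := CharP.cast_eq_zero F ℓ
  obtain ⟨c', h1, h2, hfr'⟩ := hN ℓ F V A B Ω α b0 c0 U N hl hp hfr
  have hT : IsPGroup ℓ Q := hp.to_subgroup Q
  have hA := frR_comp (bw F α) (dia V) b0 c0 hfr
  have hB := frR_comp (bw F N.nwh) (dia V) _ c' hfr'
  rw [← cw_eq] at hA hB
  have hFA := @hF ℓ _ F V A Ω _ _ _ _ _ (MulAction.compHom Ω (dia V)) (cw F α) b0 c0 Q hl hT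
    inferInstance hA
  have hFB := @hF ℓ _ F V B (Σ ε : MulAut U, Fp Ω (twW U ε)) _ _ _ _ _
    (MulAction.compHom _ (dia V)) (cw F N.nwh) _ c' Q hl hT inferInstance hB
  obtain ⟨hA1, -⟩ := hFA
  obtain ⟨-, hB2⟩ := hFB
  have hx1 : x ∈ FxR (bw F α) (twW U (1 : MulAut U)) :=
    mem1 fun w => mem_cw.1 hx w (Subgroup.mem_top _)
  have hxq : N.β 1 x ∈ FxR (cw F N.nwh) Q := fun q _ => fx_nwh N hx q (Subgroup.mem_top _)
  have h3 := hB2 (N.β 1 x) hxq
  rw [Finset.sum_eq_zero, sub_zero] at h3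
  · exact h3
  · rintro ⟨⟨ε, ω⟩, ht⟩ _
    by_cases hε : ε = 1
    · subst hε
      have h7 : c' ⟨1, ω⟩ (N.β 1 x) = 0 := by
        refine (h1 ⟨1, ω⟩ x hx1).trans (hA1 ω.1 ?_ x hxQ)
        intro v hv
        have h4 : ((v, v) : V × V) • (⟨1, ω⟩ : Σ ε : MulAut U, Fp Ω (twW U ε)) = ⟨1, ω⟩ := ht hv
        rw [Sigma.ext_iff] at h4
        have h5 : ((v, v) : V × V) • ω = ω := eq_of_heq h4.2
        exact congrArg Subtype.val h5
      change c' ⟨1, ω⟩ (N.β 1 x) • _ = 0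
      rw [h7, zero_smul]
    · have h7 : c' ⟨ε, ω⟩ (N.β 1 x) = 0 := h2 ⟨ε, ω⟩ 1 (fun h => hε h.symm) x hx1
      change c' ⟨ε, ω⟩ (N.β 1 x) • _ = 0
      rw [h7, zero_smul]

theorem ntr (hN : NfrStmt) (hF : FrbStmt) : NtrStmt := by
  intro ℓ _ F V E A As B Bs _ _ _ _ _ _ _ _ _ _ _ _ _ φ α W W0 γ N N₁ N' df df' hp hper hW0 hW
    hN1 hq hReg
  obtain ⟨r, la, χ, xx, t, D, lf, G, hD, hFo⟩ := hReg
  -- no torsion
  have htf : ∀ a : As, (PowerSeries.X : F⟦X⟧) • a = 0 → a = 0 := by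
    obtain ⟨Ω, _, _, b, c, hfr⟩ := df.per
    intro a ha
    rw [← hfr.2.2 a]
    refine Finset.sum_eq_zero fun ω _ => ?_
    have h1 : (PowerSeries.X : F⟦X⟧) * c ω a = 0 := by
      have h2 := congrArg (c ω) ha
      rwa [map_smul, map_zero, smul_eq_mul] at h2
    rcases mul_eq_zero.1 h1 with h | h
    · exact absurd h PowerSeries.X_ne_zero
    · rw [h, zero_smul]
  have hcm : ∀ (u : V) (w : W), γ w * lf u = lf u * γ w := hFo.cm
  -- `G u` commutes with `W`
  have hG : ∀ (u : V) (w : W), γ w * G u = G u * γ w := by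
    intro u w
    have h1 := hFo.pl u (hW u)
    set g : As := γ ⟨u ^ ℓ, hW u⟩ with hg
    set g' : As := γ ⟨u ^ ℓ, hW u⟩⁻¹ with hg'
    have h2 : g' * g = 1 := by rw [hg, hg', ← map_mul, inv_mul_cancel, map_one]
    have h3 : γ w * lf u ^ ℓ = lf u ^ ℓ * γ w := pow_comm (hcm u) ℓ w
    have h4 : γ w * g = g * γ w := by rw [hg, ← map_mul, ← map_mul, mul_comm]
    rw [h1, ← mul_assoc, h4, mul_assoc, mul_assoc] at h3
    have h5 : γ w * (1 + (PowerSeries.X : F⟦X⟧) • G u) =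
        (1 + (PowerSeries.X : F⟦X⟧) • G u) * γ w := by
      have h6 := congrArg (g' * ·) h3
      simp only [← mul_assoc, h2, one_mul] at h6
      exact h6
    rw [mul_add, add_mul, mul_one, one_mul, add_right_inj, mul_smul_comm, smul_mul_assoc] at h5
    have h6 : (PowerSeries.X : F⟦X⟧) • (γ w * G u - G u * γ w) = 0 := by
      rw [smul_sub, h5, sub_self]
    exact sub_eq_zero.1 (htf _ h6)
  have hM : ∀ a : As, (∀ w : W, γ w * a = a * γ w) →
      a ∈ FxR (bw F⟦X⟧ γ) (twW (W0.subgroupOf W) (1 : MulAut (W0.subgroupOf W))) :=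
    fun a ha => mem1 ha
  refine ⟨r, la, χ, xx, t, fun u => N.β 1 (D u), fun u => N'.β 1 (lf u), fun u => N'.β 1 (G u),
    ?_, ?_⟩
  · refine ⟨hD.eg, hD.qst, ?_, ?_, ?_, ?_⟩
    · intro u v
      rw [hD.add, map_add]
    · intro w hw
      rw [hD.w0 w hw, map_zero]
    · intro u
      exact fx_nwh N (hD.fx u)
    · intro u
      have h1 : Xe N.nwh (pg la xx t u) = N.β 1 (Xe α (pg la xx t u)) := by
        rw [Xe, Xe, map_sum]
        refine Finset.sum_congr rfl fun v _ => ?_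
        rw [map_smul, N.nwh_apply]
      have h2 : Xe α (pg la xx t u) ∈ FxR (cw F α) ⊤ := by
        rw [Xe]
        exact Submodule.sum_mem _ fun v _ => Submodule.smul_mem _ _ (al_mem_cw v ⊤)
      have h3 := bk_nwh hN hF ℓ N hp hper (QW0 φ W)
        ((FxR (cw F α) ⊤).sub_mem (hD.fx u) h2) (hD.bk u)
      rw [map_sub] at h3
      rw [h1]
      exact h3
  · refine ⟨?_, ?_, ?_, ?_, ?_⟩
    · intro u
      rw [hq _ (hM _ (hcm u)), hFo.q0, hN1, N.nwh_apply]
    · intro u w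
      rw [N'.nwh_apply, ← nmul N' (al_mem_tw w _) (hM _ (hcm u)),
        ← nmul N' (hM _ (hcm u)) (al_mem_tw w _), hcm u w]
    · intro u h
      have h1 : ∀ w : W, γ w * (1 + (PowerSeries.X : F⟦X⟧) • G u) =
          (1 + (PowerSeries.X : F⟦X⟧) • G u) * γ w := by
        intro w
        rw [mul_add, add_mul, mul_one, one_mul, mul_smul_comm, smul_mul_assoc, hG u w]
      rw [← npow N' (hcm u), hFo.pl u h, nmul N' (al_mem_tw _ _) (hM _ h1), map_add, N'.one,
        map_smul, N'.nwh_apply]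
    · intro u
      rw [hq _ (hM _ (hG u)), hFo.qG, hN1]
    · intro u v
      obtain ⟨z, hz⟩ := hFo.cc u v
      have hzc : ∀ w : W, γ w * z = z * γ w := by
        intro w
        have h1 : γ w * (lf u * lf v - lf v * lf u) = (lf u * lf v - lf v * lf u) * γ w := by
          rw [mul_sub, sub_mul, ← mul_assoc, hcm u w, mul_assoc, hcm v w, ← mul_assoc,
            ← mul_assoc (γ w), hcm v w, mul_assoc (lf v), hcm u w, ← mul_assoc]
        rw [hz, mul_smul_comm, smul_mul_assoc] at h1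
        have h2 : (PowerSeries.X : F⟦X⟧) • ((PowerSeries.X : F⟦X⟧) • (γ w * z - z * γ w)) = 0 := by
          rw [smul_smul, ← pow_two, smul_sub, h1, sub_self]
        exact sub_eq_zero.1 (htf _ (htf _ h2))
      refine ⟨N'.β 1 z, ?_⟩
      rw [← nmul N' (hM _ (hcm u)) (hM _ (hcm v)), ← nmul N' (hM _ (hcm v)) (hM _ (hcm u)),
        ← map_sub, hz, map_smul]

end Pool.Agent.PST.H5
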