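import Pool.Agent.PST.StmtsGV
import Pool.Agent.PSS.Atg

/-!
# Squad PST, row AGQ: the generic iteration
-/

noncomputable section

namespace Pool.Agent.PST.GU.H5

open Pool.Agent.PSS

theorem agq : AgqRow := by
  intro P hP stp stq bas n
  induction n with
  | zero =>
    intro ℓ _ F V E A B _ _ _ _ _ _ _ _ _ _ _ φ α T W ψ hp hE hWT hst hc hr hw hA hB
    change T = ⊤ at hc
    subst hc
    have h1 := hP (⊤ : Subgroup V) V E ψ φ (W.subgroupOf ⊤)
      (Subgroup.topEquiv (G := V)).symm (by
        intro e v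
        apply Subtype.ext
        exact (hr e ⟨v, Subgroup.mem_top v⟩).symm) hw
    have h2 : (W.subgroupOf ⊤).comap (Subgroup.topEquiv (G := V)).symm.toMonoidHom = W := by
      ext v
      exact Iff.rfl
    rw [h2] at h1
    exact bas ℓ F V E A B φ α W hp hE h1 hA hB
  | succ n ih =>
    intro ℓ _ F V E A B _ _ _ _ _ _ _ _ _ _ _ φ α T W ψ hp hE hWT hst hc hr hw hA hB
    obtain ⟨W', ψ', hY, hTW, hr', hc'⟩ := hc
    have : Fintype W' := Fintype.ofFinite W'
    have hWW : W ≤ W' := hWT.trans hTW
    have key : ∃ (F' C B' : Type) (_ : Field F') (_ : IsAlgClosed F') (_ : CharP F' ℓ)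
        (_ : Ring C) (_ : Algebra F' C) (_ : Ring B') (_ : Algebra F' B') (γ : W' →* C)
        (_ : IsNW F' γ (W.subgroupOf W') B'), Cl F' ψ' γ ∧
        Module.finrank F' (Subalgebra.center F' C) = Module.finrank F (Subalgebra.center F A) ∧
        Module.finrank F' (Subalgebra.center F' B') =
          Module.finrank F (Subalgebra.center F B) := by
      rcases hY with ⟨Y, hY⟩ | hY
      · exact stp ℓ F V E A B φ α Y W' W ψ' hp hE hY hr' hWW hst hA hB
      · exact stq ℓ F V E A B φ α W' W ψ' hp hE hY hr' hWW hst hA hB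
    obtain ⟨F', C, B', i1, i2, i3, i4, i5, i6, i7, γ, nw, hC, h1, h2⟩ := key
    let s : T ≃* (T.subgroupOf W') := (Subgroup.subgroupOfEquivOfLe hTW).symm
    have hs : ∀ w : T, (((s w : T.subgroupOf W') : W') : V) = w := by
      intro w
      rfl
    have hrs : IsRs ψ' (T.subgroupOf W') (trA s ψ) := by
      intro e w
      apply Subtype.ext
      rw [hr']
      obtain ⟨v, rfl⟩ := s.surjective w
      rw [trA_apply, s.symm_apply_apply, hs, hs]
      exact hr e v
    have hfin := ih ℓ F' W' E C B' ψ' γ (T.subgroupOf W') (W.subgroupOf W') (trA s ψ)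
      (hp.to_subgroup W') hE ?_ ?_ hc' hrs ?_ hC nw
    · rw [← h1, ← h2]
      exact hfin
    · intro w hw
      exact hWT hw
    · intro e w hw'
      change ((ψ' e w : W') : V) ∈ W
      rw [hr']
      exact hst e _ hw'
    · have h3 := hP T (T.subgroupOf W') E ψ (trA s ψ) (W.subgroupOf T) s.symm (by
        intro e u
        obtain ⟨v, rfl⟩ := s.surjective u
        rw [trA_apply, s.symm_apply_apply, s.symm_apply_apply]) hw
      have h4 : (W.subgroupOf T).comap s.symm.toMonoidHom =
          (W.subgroupOf W').subgroupOf (T.subgroupOf W') := by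
        ext u
        obtain ⟨v, rfl⟩ := s.surjective u
        change ((s.symm (s v) : T) : V) ∈ W ↔ (((s v : T.subgroupOf W') : W') : V) ∈ W
        rw [s.symm_apply_apply, hs]
      rw [h4] at h3
      exact h3

end Pool.Agent.PST.GU.H5
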